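import Pool.Agent.Helper15.An.Walk

/-! A bound for the number of eigenvalues near the top of an average, from a trace. -/

set_option autoImplicit false
set_option linter.unusedSectionVars false
set_option linter.unusedVariables false

namespace Pool.Agent.Helper31.W

open Matrix Pool.Agent.Helper15.An
open scoped ComplexOrder

section tools
variable {d : Type} [Fintype d] [DecidableEq d]

/-- quadratic form of a conjugated diagonal matrix -/
theorem qf_conj_diag (U : Matrix.unitaryGroup d ℂ) (f : d → ℝ) (v : d → ℂ) :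
    qf ((U : Matrix d d ℂ) * diagonal (fun i => ((f i : ℝ) : ℂ)) * (U : Matrix d d ℂ)ᴴ) v =
      ∑ i, f i * ‖((U : Matrix d d ℂ)ᴴ *ᵥ v) i‖ ^ 2 := by
  unfold qf
  have h1 : star v ⬝ᵥ (((U : Matrix d d ℂ) * diagonal (fun i => ((f i : ℝ) : ℂ)) *
      (U : Matrix d d ℂ)ᴴ) *ᵥ v) = star ((U : Matrix d d ℂ)ᴴ *ᵥ v) ⬝ᵥ
        (diagonal (fun i => ((f i : ℝ) : ℂ)) *ᵥ ((U : Matrix d d ℂ)ᴴ *ᵥ v)) := by
    rw [star_mulVec, conjTranspose_conjTranspose, ← Matrix.dotProduct_mulVec,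
      Matrix.mulVec_mulVec, Matrix.mulVec_mulVec, Matrix.mul_assoc]
  rw [h1]
  unfold dotProduct
  rw [Complex.re_sum]
  refine Finset.sum_congr rfl fun i _ => ?_
  rw [Pi.star_apply, Matrix.mulVec_diagonal, Complex.star_def]
  have h2 : (starRingEnd ℂ) (((U : Matrix d d ℂ)ᴴ *ᵥ v) i) *
      (((f i : ℝ) : ℂ) * ((U : Matrix d d ℂ)ᴴ *ᵥ v) i) =
      ((f i : ℝ) : ℂ) * ((starRingEnd ℂ) (((U : Matrix d d ℂ)ᴴ *ᵥ v) i) *
        ((U : Matrix d d ℂ)ᴴ *ᵥ v) i) := by ring
  rw [h2, ← Complex.normSq_eq_conj_mul_self, ← Complex.ofReal_mul, Complex.ofReal_re,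
    Complex.normSq_eq_norm_sq]

theorem nrm2_conj_unitary (U : Matrix.unitaryGroup d ℂ) (v : d → ℂ) :
    nrm2 ((U : Matrix d d ℂ)ᴴ *ᵥ v) = nrm2 v := by
  rw [nrm2_mulVec, conjTranspose_conjTranspose, unitary_mul_conj, qf_one]

/-- Jensen's inequality for the spectral measure of a vector -/
theorem qf_pow_le {M : Matrix d d ℂ} (hM : M.PosSemidef) (v : d → ℂ) (hv : nrm2 v = 1)
    (q : ℕ) : (qf M v) ^ q ≤ qf (M ^ q) v := by
  have hH := hM.isHermitian
  have e1 := qf_conj_diag hH.eigenvectorUnitary hH.eigenvalues v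
  rw [← spec_decomp hH] at e1
  have e2 := qf_conj_diag hH.eigenvectorUnitary (fun i => hH.eigenvalues i ^ q) v
  have e3 : M ^ q = (hH.eigenvectorUnitary : Matrix d d ℂ) *
      diagonal (fun i => ((hH.eigenvalues i ^ q : ℝ) : ℂ)) *
      (hH.eigenvectorUnitary : Matrix d d ℂ)ᴴ := by
    conv_lhs => rw [spec_decomp hH]
    rw [conj_diag_pow]
    congr 3
    ext i
    push_cast
    rfl
  rw [← e3] at e2
  rw [e1, e2]
  have h := Real.pow_arith_mean_le_arith_mean_pow Finset.univ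
    (fun i => ‖((hH.eigenvectorUnitary : Matrix d d ℂ)ᴴ *ᵥ v) i‖ ^ 2) hH.eigenvalues
    (fun i _ => by positivity)
    (by
      have := nrm2_conj_unitary hH.eigenvectorUnitary v
      rw [hv] at this
      exact this)
    (fun i _ => hM.eigenvalues_nonneg i) q
  calc (∑ i, hH.eigenvalues i * ‖((hH.eigenvectorUnitary : Matrix d d ℂ)ᴴ *ᵥ v) i‖ ^ 2) ^ q
      = (∑ i, ‖((hH.eigenvectorUnitary : Matrix d d ℂ)ᴴ *ᵥ v) i‖ ^ 2 * hH.eigenvalues i) ^ q := by
        congr 1
        exact Finset.sum_congr rfl fun i _ => mul_comm _ _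
    _ ≤ _ := h
    _ = _ := Finset.sum_congr rfl fun i _ => mul_comm _ _

/-- columns of a unitary matrix -/
theorem nrm2_col (U : Matrix.unitaryGroup d ℂ) (i : d) :
    nrm2 (fun a => (U : Matrix d d ℂ) a i) = 1 := by
  have h := congrFun (congrFun (unitary_conj_mul U) i) i
  rw [Matrix.mul_apply, Matrix.one_apply_eq] at h
  rw [nrm2_eq]
  have h2 : star (fun a => (U : Matrix d d ℂ) a i) ⬝ᵥ (fun a => (U : Matrix d d ℂ) a i) = 1 := by
    rw [← h]
    rfl
  rw [h2, Complex.one_re]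

theorem qf_col (U : Matrix.unitaryGroup d ℂ) (M : Matrix d d ℂ) (i : d) :
    qf M (fun a => (U : Matrix d d ℂ) a i) =
      (((U : Matrix d d ℂ)ᴴ * M * (U : Matrix d d ℂ)) i i).re := by
  unfold qf
  congr 1
  rw [Matrix.mul_assoc, Matrix.mul_apply]
  rfl

theorem trace_eq_sum_qf (U : Matrix.unitaryGroup d ℂ) (M : Matrix d d ℂ) :
    (trace M).re = ∑ i, qf M (fun a => (U : Matrix d d ℂ) a i) := by
  have h1 : trace M = trace ((U : Matrix d d ℂ)ᴴ * M * (U : Matrix d d ℂ)) := by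
    rw [Matrix.trace_mul_comm, ← Matrix.mul_assoc, unitary_mul_conj, Matrix.one_mul]
  rw [h1, Matrix.trace, Complex.re_sum]
  refine Finset.sum_congr rfl fun i _ => ?_
  rw [qf_col]
  rfl

theorem qf_eigen {M : Matrix d d ℂ} (hM : M.IsHermitian) (i : d) :
    qf M (fun a => (hM.eigenvectorUnitary : Matrix d d ℂ) a i) = hM.eigenvalues i := by
  rw [qf_col]
  have h1 : (hM.eigenvectorUnitary : Matrix d d ℂ)ᴴ * M *
      (hM.eigenvectorUnitary : Matrix d d ℂ) =
      diagonal (fun i => ((hM.eigenvalues i : ℝ) : ℂ)) := by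
    calc (hM.eigenvectorUnitary : Matrix d d ℂ)ᴴ * M * (hM.eigenvectorUnitary : Matrix d d ℂ)
        = (hM.eigenvectorUnitary : Matrix d d ℂ)ᴴ *
        ((hM.eigenvectorUnitary : Matrix d d ℂ) * diagonal (fun i => ((hM.eigenvalues i : ℝ) : ℂ)) *
          (hM.eigenvectorUnitary : Matrix d d ℂ)ᴴ) * (hM.eigenvectorUnitary : Matrix d d ℂ) :=
          congrArg (fun Z => (hM.eigenvectorUnitary : Matrix d d ℂ)ᴴ * Z *
            (hM.eigenvectorUnitary : Matrix d d ℂ)) (spec_decomp hM)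
      _ = ((hM.eigenvectorUnitary : Matrix d d ℂ)ᴴ * (hM.eigenvectorUnitary : Matrix d d ℂ)) *
          diagonal (fun i => ((hM.eigenvalues i : ℝ) : ℂ)) *
          ((hM.eigenvectorUnitary : Matrix d d ℂ)ᴴ * (hM.eigenvectorUnitary : Matrix d d ℂ)) := by
          simp only [Matrix.mul_assoc]
      _ = _ := by rw [unitary_conj_mul, Matrix.one_mul, Matrix.mul_one]
  rw [h1, diagonal_apply_eq, Complex.ofReal_re]

theorem posSemidef_pow' {M : Matrix d d ℂ} (hM : M.PosSemidef) (q : ℕ) : (M ^ q).PosSemidef :=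
  hM.pow q

theorem trace_eq_sum_pow {M : Matrix d d ℂ} (hM : M.IsHermitian) (q : ℕ) :
    (trace (M ^ q)).re = ∑ i, (hM.eigenvalues i) ^ q := by
  conv_lhs => rw [spec_decomp hM]
  rw [conj_diag_pow, Matrix.trace_mul_comm, ← Matrix.mul_assoc,
    unitary_conj_mul, Matrix.one_mul, Matrix.trace_diagonal]
  rw [Complex.re_sum]
  refine Finset.sum_congr rfl fun i _ => ?_
  rw [← Complex.ofReal_pow, Complex.ofReal_re]

/-- monotonicity of the trace of powers -/
theorem trace_pow_mono {M N : Matrix d d ℂ} (hM : M.PosSemidef) (hN : N.PosSemidef)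
    (h : (N - M).PosSemidef) (q : ℕ) : (trace (M ^ q)).re ≤ (trace (N ^ q)).re := by
  have hH := hM.isHermitian
  rw [trace_eq_sum_pow hH, trace_eq_sum_qf hH.eigenvectorUnitary (N ^ q)]
  refine Finset.sum_le_sum fun i _ => ?_
  refine le_trans ?_ (qf_pow_le hN _ (nrm2_col hH.eigenvectorUnitary i) q)
  have h1 := qf_nonneg h (fun a => (hH.eigenvectorUnitary : Matrix d d ℂ) a i)
  rw [qf_sub, qf_eigen hH] at h1
  exact pow_le_pow_left₀ (hM.eigenvalues_nonneg i) (by linarith) q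

theorem trace_mul_pow_comm (X Y : Matrix d d ℂ) (q : ℕ) :
    trace ((X * Y) ^ q) = trace ((Y * X) ^ q) := by
  cases q with
  | zero => simp
  | succ q =>
    rw [pow_succ, ← Matrix.mul_assoc, mul_pow_mul, Matrix.mul_assoc, Matrix.trace_mul_comm,
      pow_succ, Matrix.mul_assoc]

theorem trace_smul_pow (c : ℝ) (M : Matrix d d ℂ) (q : ℕ) :
    (trace ((c • M) ^ q)).re = c ^ q * (trace (M ^ q)).re := by
  rw [smul_pow, trace_smul, Complex.real_smul, Complex.re_ofReal_mul]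

/-- the euclidean norm -/
noncomputable def nm (v : d → ℂ) : ℝ := Real.sqrt (nrm2 v)

theorem nm_eq (v : d → ℂ) : nm v = ‖(WithLp.toLp 2 v : EuclideanSpace ℂ d)‖ := by
  rw [nm, EuclideanSpace.norm_eq]
  rfl

theorem nm_add (v w : d → ℂ) : nm (v + w) ≤ nm v + nm w := by
  rw [nm_eq, nm_eq, nm_eq]
  exact norm_add_le (WithLp.toLp 2 v : EuclideanSpace ℂ d) (WithLp.toLp 2 w)

theorem nm_nonneg (v : d → ℂ) : 0 ≤ nm v := Real.sqrt_nonneg _

theorem nm_le {v : d → ℂ} {c : ℝ} (hc : 0 ≤ c) (h : nrm2 v ≤ c ^ 2) : nm v ≤ c := by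
  rw [nm]
  exact Real.sqrt_le_iff.2 ⟨hc, h⟩

theorem nm_mono {v w : d → ℂ} (h : nrm2 v ≤ nrm2 w) : nm v ≤ nm w := Real.sqrt_le_sqrt h

end tools

section main
variable {d : Type} [Fintype d] [DecidableEq d]

/-- the compressed unitary moves a nearly invariant vector very little -/
theorem compress_lower {P U : Matrix d d ℂ} (hP : P.IsHermitian) (hPP : P * P = P)
    (hU : Uᴴ * U = 1) (v : d → ℂ) (hv : nrm2 v = 1) (hw : nrm2 ((1 - P) *ᵥ v) ≤ 1 / 50)
    (hUv : nrm2 (U *ᵥ v - v) ≤ 1 / 25) : 1 / 4 ≤ nrm2 ((P * U * P) *ᵥ v) := by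
  -- `P` is a contraction
  have hPc : ∀ z : d → ℂ, nrm2 (P *ᵥ z) ≤ nrm2 z := by
    intro z
    have h1 : nrm2 ((1 - P) *ᵥ z) = nrm2 z - nrm2 (P *ᵥ z) := by
      rw [nrm2_mulVec, nrm2_mulVec, ← qf_one z, ← qf_sub]
      congr 1
      rw [conjTranspose_sub, conjTranspose_one, hP.eq, hPP, Matrix.sub_mul, Matrix.mul_sub,
        Matrix.mul_sub, hPP]
      simp
    have := nrm2_nonneg ((1 - P) *ᵥ z)
    linarith
  have e : v = (P * U * P) *ᵥ v + (P *ᵥ (U *ᵥ ((1 - P) *ᵥ v)) +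
      (P *ᵥ (-(U *ᵥ v - v)) + (1 - P) *ᵥ v)) := by
    simp only [Matrix.mulVec_sub, Matrix.sub_mulVec, Matrix.one_mulVec, Matrix.mulVec_neg,
      Matrix.mulVec_mulVec, Matrix.mul_assoc]
    abel
  have h1 : nm v ≤ nm ((P * U * P) *ᵥ v) + (nm (P *ᵥ (U *ᵥ ((1 - P) *ᵥ v))) +
      (nm (P *ᵥ (-(U *ᵥ v - v))) + nm ((1 - P) *ᵥ v))) := by
    conv_lhs => rw [e]
    refine (nm_add _ _).trans ?_
    gcongr
    refine (nm_add _ _).trans ?_
    gcongr
    exact nm_add _ _
  have h2 : nm ((1 - P) *ᵥ v) ≤ 3 / 20 := nm_le (by norm_num) (by linarith)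
  have h3 : nm (P *ᵥ (U *ᵥ ((1 - P) *ᵥ v))) ≤ 3 / 20 := by
    refine nm_le (by norm_num) ?_
    have h4 := hPc (U *ᵥ ((1 - P) *ᵥ v))
    rw [nrm2_unitary hU] at h4
    linarith
  have h5 : nm (P *ᵥ (-(U *ᵥ v - v))) ≤ 1 / 5 := by
    refine nm_le (by norm_num) ?_
    have h4 := hPc (-(U *ᵥ v - v))
    have h6 : nrm2 (-(U *ᵥ v - v)) = nrm2 (U *ᵥ v - v) := by
      unfold nrm2
      refine Finset.sum_congr rfl fun i _ => ?_
      rw [Pi.neg_apply, norm_neg]
    rw [h6] at h4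
    linarith
  have h7 : nm v = 1 := by rw [nm, hv, Real.sqrt_one]
  have h8 : 1 / 2 ≤ nm ((P * U * P) *ᵥ v) := by linarith
  have h9 : nm ((P * U * P) *ᵥ v) ^ 2 = nrm2 ((P * U * P) *ᵥ v) := by
    rw [nm, Real.sq_sqrt (nrm2_nonneg _)]
  rw [← h9]
  nlinarith

theorem dim_bound {d : Type} [Fintype d] [DecidableEq d] {T : Matrix d d ℂ}
    (hT : T.IsHermitian) (hT1 : ((1 : ℝ) • (1 : Matrix d d ℂ) - T).PosSemidef)
    (hT2 : (T - (-1 : ℝ) • (1 : Matrix d d ℂ)).PosSemidef)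
    {B : ℕ} (hB : 0 < B) (x : Fin B → Matrix d d ℂ) (hx : ∀ b, (x b)ᴴ * x b = 1)
    (η : ℝ) (h0 : 0 < η) (h1 : η ≤ 1) (l q : ℕ)
    (hH : ((1 / 2 : ℝ) • (T + avgRe x)).IsHermitian) (b : Fin B) :
    (Fintype.card (TopIdx hH (1 - η / (100 * B))) : ℝ) * ((1 - η / 2) ^ (4 * l) / 4) ^ q ≤
      (trace (((((1 / 2 : ℝ) • ((1 : Matrix d d ℂ) + T)) ^ (2 * l)) *
        ((x b)ᴴ * (((1 / 2 : ℝ) • ((1 : Matrix d d ℂ) + T)) ^ (2 * l)) * x b)) ^ q)).re := by
  classical
  set Y : Matrix d d ℂ := (1 / 2 : ℝ) • ((1 : Matrix d d ℂ) + T) with hY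
  have hYH : Y.IsHermitian := by
    unfold Matrix.IsHermitian
    rw [hY, conjTranspose_smul, conjTranspose_add, conjTranspose_one, hT.eq]
    simp
  set A : Matrix d d ℂ := Y ^ l with hA
  have hAH : Aᴴ = A := by rw [hA, conjTranspose_pow, hYH.eq]
  set N : Matrix d d ℂ := Y ^ (2 * l) with hN
  have hNA : N = A * A := by rw [hN, hA, two_mul, pow_add]
  have hNpsd : N.PosSemidef := by
    rw [hNA]
    nth_rewrite 1 [← hAH]
    exact posSemidef_conjTranspose_mul_self A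
  obtain ⟨P, hP⟩ : ∃ P : Matrix d d ℂ, P = topIso hT (1 - η) * (topIso hT (1 - η))ᴴ := ⟨_, rfl⟩
  have hPH : P.IsHermitian := by
    rw [hP]; exact isHermitian_mul_conjTranspose_self _
  have hPP : P * P = P := by
    rw [hP, Matrix.mul_assoc, ← Matrix.mul_assoc (topIso hT (1 - η))ᴴ, topIso_conj_mul,
      Matrix.one_mul]
  have hPpsd : P.PosSemidef := by
    rw [hP]; exact posSemidef_self_mul_conjTranspose _
  set θ : ℝ := (1 - η / 2) ^ (2 * l) with hθ
  have hbase : 0 ≤ 1 - η / 2 := by linarith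
  have hθ0 : 0 ≤ θ := pow_nonneg hbase _
  -- comparison of `N` with the projection
  have hNP : (N - θ • P).PosSemidef := by
    have e1 : N = (hT.eigenvectorUnitary : Matrix d d ℂ) *
        diagonal (fun i => (((1 / 2 + 1 / 2 * hT.eigenvalues i) ^ (2 * l) : ℝ) : ℂ)) *
        (hT.eigenvectorUnitary : Matrix d d ℂ)ᴴ := by
      have e2 : Y = (1 / 2 : ℝ) • (1 : Matrix d d ℂ) + (1 / 2 : ℝ) • T := by
        rw [hY, smul_add]
      rw [hN, e2, affine_spec hT, conj_diag_pow]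
      congr 3
      ext i
      push_cast
      rfl
    have e3 : θ • P = (hT.eigenvectorUnitary : Matrix d d ℂ) *
        diagonal (fun i => ((θ * (if 1 - η ≤ hT.eigenvalues i then (1 : ℝ) else 0) : ℝ) : ℂ)) *
        (hT.eigenvectorUnitary : Matrix d d ℂ)ᴴ := by
      rw [hP, topIso_mul_conj', ← Matrix.smul_mul, ← Matrix.mul_smul]
      congr 2
      ext i j
      by_cases hij : i = j
      · subst hij
        rw [Matrix.smul_apply, diagonal_apply_eq, diagonal_apply_eq]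
        split_ifs <;> simp
      · simp [hij]
    rw [e1, e3, ← Matrix.sub_mul, ← Matrix.mul_sub, diagonal_sub]
    refine PosSemidef.mul_mul_conjTranspose_same (PosSemidef.diagonal ?_) _
    intro i
    simp only [Pi.zero_apply]
    have h3 : (0 : ℝ) ≤ (1 / 2 + 1 / 2 * hT.eigenvalues i) ^ (2 * l) -
        θ * (if 1 - η ≤ hT.eigenvalues i then (1 : ℝ) else 0) := by
      split_ifs with h
      · rw [mul_one, hθ, sub_nonneg]
        exact pow_le_pow_left₀ hbase (by linarith) _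
      · rw [mul_zero, sub_zero, pow_mul]
        positivity
    have h4 : (((1 / 2 + 1 / 2 * hT.eigenvalues i) ^ (2 * l) : ℝ) : ℂ) -
        ((θ * (if 1 - η ≤ hT.eigenvalues i then (1 : ℝ) else 0) : ℝ) : ℂ) =
        (((1 / 2 + 1 / 2 * hT.eigenvalues i) ^ (2 * l) -
        θ * (if 1 - η ≤ hT.eigenvalues i then (1 : ℝ) else 0) : ℝ) : ℂ) := by
      push_cast
      ring
    rw [h4]
    exact_mod_cast h3
  set U : Matrix d d ℂ := x b with hU
  have hUU : Uᴴ * U = 1 := hx b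
  set C : Matrix d d ℂ := A * U with hC
  have hCC : Cᴴ * C = Uᴴ * N * U := by
    rw [hC, conjTranspose_mul, hAH, hNA]
    simp only [Matrix.mul_assoc]
  -- first reduction
  have s1 : trace ((N * (Uᴴ * N * U)) ^ q) = trace ((C * N * Cᴴ) ^ q) := by
    rw [← hCC, ← Matrix.mul_assoc, trace_mul_pow_comm, ← Matrix.mul_assoc]
  have s2 : θ ^ q * (trace ((C * P * Cᴴ) ^ q)).re ≤ (trace ((C * N * Cᴴ) ^ q)).re := by
    rw [← trace_smul_pow]
    refine trace_pow_mono ?_ (hNpsd.mul_mul_conjTranspose_same C) ?_ q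
    · exact (hPpsd.mul_mul_conjTranspose_same C).smul hθ0
    · have := hNP.mul_mul_conjTranspose_same C
      rw [Matrix.mul_sub, Matrix.sub_mul, Matrix.mul_smul, Matrix.smul_mul] at this
      exact this
  have s3 : trace ((C * P * Cᴴ) ^ q) = trace ((P * (Uᴴ * N * U) * P) ^ q) := by
    have e1 : C * P * Cᴴ = (C * P) * (P * Cᴴ) := by
      rw [← Matrix.mul_assoc, Matrix.mul_assoc C P P, hPP]
    have e2 : P * (Uᴴ * N * U) * P = (P * Cᴴ) * (C * P) := by
      rw [← hCC]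
      simp only [Matrix.mul_assoc]
    rw [e1, e2, trace_mul_pow_comm]
  set K : Matrix d d ℂ := P * U * P with hK
  have hKK : Kᴴ * K = P * (Uᴴ * P * U) * P := by
    rw [hK, conjTranspose_mul, conjTranspose_mul, hPH.eq]
    calc P * (Uᴴ * P) * (P * U * P) = P * (Uᴴ * (P * P) * U) * P := by
          simp only [Matrix.mul_assoc]
      _ = _ := by rw [hPP]
  have s4 : θ ^ q * (trace ((Kᴴ * K) ^ q)).re ≤
      (trace ((P * (Uᴴ * N * U) * P) ^ q)).re := by
    rw [← trace_smul_pow]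
    have g1 : ∀ M : Matrix d d ℂ, M.PosSemidef → (P * (Uᴴ * M * U) * P).PosSemidef := by
      intro M hM
      have := (hM.conjTranspose_mul_mul_same U).conjTranspose_mul_mul_same P
      rwa [hPH.eq] at this
    refine trace_pow_mono ?_ (g1 N hNpsd) ?_ q
    · exact (posSemidef_conjTranspose_mul_self K).smul hθ0
    · have := g1 _ hNP
      rw [hKK]
      convert this using 1
      simp only [Matrix.mul_sub, Matrix.sub_mul, Matrix.mul_smul, Matrix.smul_mul]
  -- lower bound from the top eigenvectors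
  have s5 : (Fintype.card (TopIdx hH (1 - η / (100 * B))) : ℝ) * (1 / 4) ^ q ≤
      (trace ((Kᴴ * K) ^ q)).re := by
    have hKpsd := posSemidef_conjTranspose_mul_self K
    rw [trace_eq_sum_qf hH.eigenvectorUnitary ((Kᴴ * K) ^ q)]
    have hsub := Finset.sum_le_sum_of_subset_of_nonneg
      (Finset.filter_subset (fun i => 1 - η / (100 * B) ≤ hH.eigenvalues i) Finset.univ)
      (f := fun i => qf ((Kᴴ * K) ^ q) (fun a => (hH.eigenvectorUnitary : Matrix d d ℂ) a i))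
      (fun i _ _ => qf_nonneg (hKpsd.pow q) _)
    refine le_trans ?_ hsub
    have hcard : Fintype.card (TopIdx hH (1 - η / (100 * B))) =
        (Finset.univ.filter (fun i => 1 - η / (100 * B) ≤ hH.eigenvalues i)).card := by
      rw [← Fintype.card_subtype]
    rw [hcard, ← nsmul_eq_mul, ← Finset.sum_const]
    refine Finset.sum_le_sum fun i hi => ?_
    have hi' := (Finset.mem_filter.1 hi).2
    set v : d → ℂ := fun a => (hH.eigenvectorUnitary : Matrix d d ℂ) a i with hv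
    have hv1 : nrm2 v = 1 := nrm2_col hH.eigenvectorUnitary i
    refine le_trans ?_ (qf_pow_le hKpsd v hv1 q)
    refine pow_le_pow_left₀ (by norm_num) ?_ q
    rw [← nrm2_mulVec]
    have hB' : (0 : ℝ) < B := by exact_mod_cast hB
    have hqH : 1 - η / (100 * B) ≤ qf ((1 / 2 : ℝ) • (T + avgRe x)) v := by
      rw [hv, qf_eigen hH]
      exact hi'
    rw [qf_smul, qf_add] at hqH
    -- energies
    have hT1v := qf_nonneg hT1 v
    rw [qf_sub, qf_smul, qf_one, hv1] at hT1v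
    have hsum2 : ∑ c, nrm2 (x c *ᵥ v - v) = 2 * (B : ℝ) * (1 - qf (avgRe x) v) := by
      have : ∀ c, nrm2 (x c *ᵥ v - v) = 2 * 1 - 2 * qf (x c) v := fun c => by
        rw [nrm2_sub_unitary (hx c) v, hv1]
      simp_rw [this]
      rw [Finset.sum_sub_distrib, ← Finset.mul_sum, ← Finset.mul_sum, ← qf_avgRe hB]
      simp only [Finset.sum_const, Finset.card_univ, Fintype.card_fin, nsmul_eq_mul]
      ring
    have hone : nrm2 (x b *ᵥ v - v) ≤ ∑ c, nrm2 (x c *ᵥ v - v) :=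
      Finset.single_le_sum (f := fun c => nrm2 (x c *ᵥ v - v)) (fun c _ => nrm2_nonneg _)
        (Finset.mem_univ b)
    have hsum0 : 0 ≤ ∑ c, nrm2 (x c *ᵥ v - v) := Finset.sum_nonneg fun c _ => nrm2_nonneg _
    have he2 : 0 ≤ 1 - qf (avgRe x) v := by
      rw [hsum2] at hsum0
      by_contra hc
      rw [not_le] at hc
      nlinarith
    have hε : η / (100 * B) ≤ 1 / 100 * η := by
      rw [div_le_iff₀ (by positivity)]
      have hB1 : (1 : ℝ) ≤ B := by exact_mod_cast hB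
      nlinarith
    have hεB : (B : ℝ) * (η / (100 * B)) = η / 100 := by
      field_simp
    refine compress_lower hPH hPP hUU v hv1 ?_ ?_
    · -- the part off the projection
      have hg := qf_nonneg (gap_off_top hT hT1 (1 - η)) v
      rw [← hP] at hg
      rw [qf_sub, qf_sub, qf_smul, qf_smul, qf_one, hv1] at hg
      have hproj : nrm2 ((1 - P) *ᵥ v) = qf (1 - P) v := by
        rw [nrm2_mulVec]
        congr 1
        rw [conjTranspose_sub, conjTranspose_one, hPH.eq, Matrix.sub_mul, Matrix.mul_sub,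
          Matrix.mul_sub, hPP]
        simp
      rw [hproj]
      have h3 : η * qf (1 - P) v ≤ η * (1 / 50) := by
        have : 1 - (1 - η) = η := by ring
        rw [this] at hg
        linarith
      exact le_of_mul_le_mul_left h3 h0
    · refine hone.trans ?_
      rw [hsum2]
      have h4 : 1 - qf (avgRe x) v ≤ 2 * (η / (100 * B)) := by linarith
      have h5 : (B : ℝ) * (1 - qf (avgRe x) v) ≤ B * (2 * (η / (100 * B))) :=
        mul_le_mul_of_nonneg_left h4 hB'.le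
      nlinarith
  -- assembly
  have hfin : (Fintype.card (TopIdx hH (1 - η / (100 * B))) : ℝ) *
      ((1 - η / 2) ^ (4 * l) / 4) ^ q =
      θ ^ q * (θ ^ q * ((Fintype.card (TopIdx hH (1 - η / (100 * B))) : ℝ) * (1 / 4) ^ q)) := by
    have e4 : (1 - η / 2) ^ (4 * l) = θ * θ := by
      rw [hθ, ← pow_add]
      congr 1
      ring
    have e5 : ((1 - η / 2) ^ (4 * l) / 4) ^ q = θ ^ q * (θ ^ q * (1 / 4) ^ q) := by
      rw [e4, div_eq_mul_one_div, mul_pow, mul_pow]
      ring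
    rw [e5]
    ring
  rw [hfin]
  have hq0 : 0 ≤ θ ^ q := pow_nonneg hθ0 q
  calc θ ^ q * (θ ^ q * ((Fintype.card (TopIdx hH (1 - η / (100 * B))) : ℝ) * (1 / 4) ^ q))
      ≤ θ ^ q * (θ ^ q * (trace ((Kᴴ * K) ^ q)).re) := by gcongr
    _ ≤ θ ^ q * (trace ((P * (Uᴴ * N * U) * P) ^ q)).re := by gcongr
    _ = θ ^ q * (trace ((C * P * Cᴴ) ^ q)).re := by rw [s3]
    _ ≤ (trace ((C * N * Cᴴ) ^ q)).re := s2
    _ = (trace ((N * (Uᴴ * N * U)) ^ q)).re := by rw [s1]

end main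

end Pool.Agent.Helper31.W
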